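import Pool.Agent.N874.PP.Def

/-!
# Project PP (helper874), part CQ: tuples over a finite field with two zeros
-/

set_option autoImplicit false

namespace Pool.Agent.N711.PP

open Pool.Agent.N874.PP

variable {F : Type} [Field F]

/-- the reversal -/
def rev (B : Tup F) : Tup F := ⟨B.w, B.z, B.c, B.y, B.x⟩

theorem chA_rev (B : Tup F) : chA (rev B) = chA B := by
  unfold chA rev
  ring

theorem chB_rev (B : Tup F) : chB (rev B) = chB B := by
  unfold chB rev
  ring

theorem rev_inj {B B' : Tup F} (h : rev B = rev B') : B = B' := by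
  unfold rev at h
  have h1 := congrArg Tup.w h
  have h2 := congrArg Tup.z h
  have h3 := congrArg Tup.c h
  have h4 := congrArg Tup.y h
  have h5 := congrArg Tup.x h
  exact Tup.ext h1 h2 h3 h4 h5

theorem chA_tau (u : F) (B : Tup F) : chA (tau u B) = chA B := by
  unfold chA tau gq
  ring

theorem chB_tau (u : F) (B : Tup F) : chB (tau u B) = chB B := by
  unfold chB tau gq
  ring

theorem tau_tau (u : F) (B : Tup F) : tau (-u) (tau u B) = B := by
  unfold tau gq
  apply Tup.ext
  · rfl
  · simp only
    ring
  · simp only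
    ring
  · simp only
    ring
  · simp only
    ring

theorem tau_inj {u : F} {B B' : Tup F} (h : tau u B = tau u B') : B = B' := by
  rw [← tau_tau u B, h, tau_tau]

/-- the tuple moved so that the zero is at infinity -/
noncomputable def mv (P : Option F) (B : Tup F) : Tup F :=
  match P with
  | none => B
  | some u => rev (tau u B)

/-- zeros on the projective line -/
def Zr (P : Option F) (B : Tup F) : Prop :=
  match P with
  | none => B.x = 0
  | some u => gq B u = 0

theorem mv_inj (P : Option F) {B B' : Tup F} (h : mv P B = mv P B') : B = B' := by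
  cases P with
  | none => exact h
  | some u => exact tau_inj (rev_inj h)

theorem mv_x {P : Option F} {B : Tup F} (h : Zr P B) : (mv P B).x = 0 := by
  cases P with
  | none => exact h
  | some u => exact h

theorem chA_mv (P : Option F) (B : Tup F) : chA (mv P B) = chA B := by
  cases P with
  | none => rfl
  | some u => exact (chA_rev _).trans (chA_tau u B)

theorem chB_mv (P : Option F) (B : Tup F) : chB (mv P B) = chB B := by
  cases P with
  | none => rfl
  | some u => exact (chB_rev _).trans (chB_tau u B)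

theorem y_ne {a b : F} (hd : 4 * a ^ 3 + 27 * b ^ 2 ≠ 0) {B : Tup F} (hx : B.x = 0)
    (ha : chA B = a) (hb : chB B = b) : B.y ≠ 0 := by
  intro hy
  apply hd
  rw [← ha, ← hb]
  unfold chA chB
  rw [hx, hy]
  ring

theorem det {a b : F} (h2 : (2 : F) ≠ 0) {B B' : Tup F} (hx : B.x = 0)
    (ha : chA B = a) (hb : chB B = b) (hx' : B'.x = 0) (ha' : chA B' = a) (hb' : chB B' = b)
    (hy : B.y = B'.y) (hc : B.c = B'.c) (hy0 : B.y ≠ 0) : B = B' := by
  rw [← ha'] at ha
  rw [← hb'] at hb
  unfold chA at ha
  unfold chB at hb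
  rw [hx, hx', hc, hy] at ha
  rw [hx, hx', hc, hy] at hb
  rw [hy] at hy0
  have hz : B.z = B'.z := by
    have h3 : 2 * B'.y * (B.z - B'.z) = 0 := by linear_combination -ha
    rcases mul_eq_zero.1 h3 with h4 | h4
    · exact absurd h4 (mul_ne_zero h2 hy0)
    · exact sub_eq_zero.1 h4
  have hw : B.w = B'.w := by
    have h3 : B'.y ^ 2 * (B.w - B'.w) = 0 := by
      rw [hz] at hb
      linear_combination -hb
    rcases mul_eq_zero.1 h3 with h4 | h4
    · exact absurd h4 (pow_ne_zero 2 hy0)
    · exact sub_eq_zero.1 h4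
  exact Tup.ext (hx.trans hx'.symm) hy hc hz hw

/-- two different zeros -/
theorem two_zr {B : Tup F} (h : Two B) : ∃ p : Bool → Option F, p true ≠ p false ∧
    ∀ i, Zr (p i) B := by
  rcases h with ⟨u, u', hu, h1, h2⟩ | ⟨hx, u, h1⟩
  · refine ⟨fun i => if i then some u else some u', ?_, fun i => ?_⟩
    · simp only [if_true, Bool.false_eq_true, if_false, ne_eq, Option.some.injEq]
      exact hu
    · cases i
      · exact h2
      · exact h1
  · refine ⟨fun i => if i then some u else none, ?_, fun i => ?_⟩
    · simp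
    · cases i
      · exact hx
      · exact h1

/-- **tuples with given characteristic polynomial and two zeros** -/
theorem cq : S_CQ := by
  intro F _ _ h6 a b hd
  classical
  have h2 : (2 : F) ≠ 0 := by
    intro h
    apply h6
    have : (6 : F) = 2 * 3 := by norm_num
    rw [this, h, zero_mul]
  obtain ⟨n, hn⟩ : ∃ n, n = Nat.card F := ⟨_, rfl⟩
  have hn1 : 1 ≤ n := by
    rw [hn]
    exact Nat.card_pos
  choose! p hp hz using fun (B : Tup F) (h : Two B) => two_zr h
  let f : {B : Tup F // chA B = a ∧ chB B = b ∧ Two B} × Bool → Option F × {y : F // y ≠ 0} × F :=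
    fun q => (p q.1.1 q.2, ⟨(mv (p q.1.1 q.2) q.1.1).y, y_ne hd (mv_x (hz _ q.1.2.2.2 _))
      ((chA_mv _ _).trans q.1.2.1) ((chB_mv _ _).trans q.1.2.2.1)⟩,
      (mv (p q.1.1 q.2) q.1.1).c)
  have hf : Function.Injective f := by
    rintro ⟨⟨B, hA, hB, hT⟩, i⟩ ⟨⟨B', hA', hB', hT'⟩, i'⟩ h
    have e1 : p B i = p B' i' := congrArg Prod.fst h
    have e2 : (mv (p B i) B).y = (mv (p B' i') B').y :=
      congrArg Subtype.val (congrArg (fun t => t.2.1) h)
    have e3 : (mv (p B i) B).c = (mv (p B' i') B').c := congrArg (fun t => t.2.2) h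
    have h3 : mv (p B i) B = mv (p B' i') B' := by
      refine det h2 (mv_x (hz _ hT _)) ((chA_mv _ _).trans hA) ((chB_mv _ _).trans hB)
        (mv_x (hz _ hT' _)) ((chA_mv _ _).trans hA') ((chB_mv _ _).trans hB') e2 e3 ?_
      exact y_ne hd (mv_x (hz _ hT _)) ((chA_mv _ _).trans hA) ((chB_mv _ _).trans hB)
    rw [← e1] at h3
    have h4 : B = B' := mv_inj _ h3
    subst h4
    have h5 : i = i' := by
      by_contra hne
      have h6 := hp B hT
      cases i <;> cases i' <;> first
        | exact hne rfl
        | exact h6 e1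
        | exact h6 e1.symm
    subst h5
    rfl
  have hc := Nat.card_le_card_of_injective f hf
  rw [Nat.card_prod, Nat.card_prod, Nat.card_prod] at hc
  have h3 : Nat.card Bool = 2 := by simp
  have h4 : Nat.card (Option F) = n + 1 := by
    rw [hn]
    exact Finite.card_option
  have h5 : Nat.card {y : F // y ≠ 0} = n - 1 := by
    have : Fintype F := Fintype.ofFinite F
    rw [hn, Nat.card_eq_fintype_card, Nat.card_eq_fintype_card, Fintype.card_subtype_compl,
      Fintype.card_subtype_eq]
  rw [h3, h4, h5, ← hn] at hc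
  rw [← hn]
  obtain ⟨m, rfl⟩ : ∃ m, n = m + 1 := ⟨n - 1, by omega⟩
  rw [Nat.add_sub_cancel] at hc
  nlinarith

end Pool.Agent.N711.PP
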